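import Pool.Agent.W811.LW.Stm

/-! LW-SV0: one step inequality, vectors, horizontal (project LW of helper811). -/

set_option autoImplicit false
open Finset Filter Topology
open scoped ENNReal

namespace Pool.Agent.W151.LW
open Pool.Agent.W811.LW

theorem et_nonneg (G : ℝ) (hG : 0 ≤ G) (i : ℤ) : 0 ≤ et G i := by
  unfold et; split_ifs <;> exact zpow_nonneg hG _

theorem et_step (G : ℝ) (hG : 1 ≤ G) (i : ℤ) : et G (i - 1) ≤ G⁻¹ * et G i := by
  have h0 : G ≠ 0 := by positivity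
  have hpos : 0 < G := by positivity
  unfold et
  by_cases h1 : 0 ≤ i - 1
  · have h2 : 0 ≤ i := by omega
    rw [if_pos h1, if_pos h2, zpow_sub_one₀ h0, mul_comm]
  · rw [if_neg h1]
    by_cases h2 : 0 ≤ i
    · have h3 : i = 0 := by omega
      subst h3
      simp only [le_refl, if_true, zpow_zero, mul_one]
      have : (3 * ((0 : ℤ) - 1)) = -3 := by norm_num
      rw [this]
      have h4 : G ^ (-3 : ℤ) ≤ G ^ (-1 : ℤ) := zpow_le_zpow_right₀ hG (by norm_num)
      simpa using h4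
    · rw [if_neg h2]
      have h4 : G ^ (3 * (i - 1)) ≤ G ^ (3 * i - 1) := zpow_le_zpow_right₀ hG (by omega)
      have h5 : G ^ (3 * i - 1) = G⁻¹ * G ^ (3 * i) := by
        rw [zpow_sub_one₀ h0]; ring
      rw [h5] at h4
      exact h4

theorem rs_nonneg (y : ℝ) : 0 ≤ rs y := by unfold rs; positivity

theorem rs_bound (D y y' : ℝ) (hD : 1 ≤ D) (hy : 0 < y) (hy' : 0 < y')
    (h : y ≤ 2 * D ^ 2 * y') : rs y' ≤ 2 * D * rs y := by
  unfold rs
  have h1 : 0 < Real.sqrt y := Real.sqrt_pos.mpr hy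
  have h2 : 0 < Real.sqrt y' := Real.sqrt_pos.mpr hy'
  have h3 : Real.sqrt y ≤ 2 * D * Real.sqrt y' := by
    have h4 : y ≤ (2 * D) ^ 2 * y' := by nlinarith [mul_pos (show (0 : ℝ) < D ^ 2 by positivity) hy']
    calc Real.sqrt y ≤ Real.sqrt ((2 * D) ^ 2 * y') := Real.sqrt_le_sqrt h4
      _ = 2 * D * Real.sqrt y' := by
        rw [Real.sqrt_mul (by positivity), Real.sqrt_sq (by positivity)]
  rw [inv_le_iff_one_le_mul₀ h2]
  have h5 : 2 * D * (Real.sqrt y)⁻¹ * Real.sqrt y' = (2 * D * Real.sqrt y') / Real.sqrt y := by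
    field_simp
  rw [h5, le_div_iff₀ h1, one_mul]
  exact h3

theorem sv0 (h : CLV0) (hp : POS) (hd : DVL) (hk : KERN) : SV0 := by
  intro G c0 hG hc0 hc1
  have hG0 : (1000 : ℝ) ≤ (G : ℝ) := by exact_mod_cast hG
  have hG1 : (1 : ℝ) ≤ (G : ℝ) := by linarith
  have hGp : (0 : ℝ) < (G : ℝ) := by linarith
  set D : ℝ := (G : ℝ) ^ 4 with hDdef
  have hcast : ((G ^ 4 : ℕ) : ℝ) = D := by rw [hDdef]; push_cast; rfl
  have hD1 : 1 ≤ D := one_le_pow₀ hG1
  have hDp : 0 < D := by linarith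
  have hDn : 2 ≤ G ^ 4 := by
    calc 2 ≤ G := by omega
      _ = G ^ 1 := (pow_one G).symm
      _ ≤ G ^ 4 := Nat.pow_le_pow_right (by omega) (by norm_num)
  obtain ⟨M, hM0, hM⟩ := hk G (c0 / (1024 * D ^ 10)) (128 * D ^ 10) (16 * D ^ 4) (2 * D) hG
    (by positivity) (by nlinarith [one_le_pow₀ hD1 (n := 10)])
    (by nlinarith [one_le_pow₀ hD1 (n := 4)]) (by linarith)
  refine ⟨M, hM0, ?_⟩
  intro α β j hα hβ
  have hposV : ∀ m, 0 < yV D α j 0 β m := fun m => by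
    have := (hp (G ^ 4) α c0 β j 0 m hDn hc0 hα).2.2.1
    rwa [hcast] at this
  have hposW : ∀ m, 0 < yW D α j 0 β m := fun m => by
    have := (hp (G ^ 4) α c0 β j 0 m hDn hc0 hα).2.2.2
    rwa [hcast] at this
  set N : ℕ := (G ^ 4) ^ 2 with hN
  have hNr : (N : ℝ) = D ^ 2 := by rw [hN, Nat.cast_pow, hcast]
  have hD2 : 0 < D ^ 2 := by positivity
  let f : ℕ → ℕ → ℝ := fun d m =>
    et G ((m : ℤ) - ((j + 1 : ℕ) : ℤ)) *
      rs (yV D α (j + 1) 0 (β + (d : ℝ) / D ^ (2 * j + 2)) m)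
  have hf0 : ∀ d m, 0 ≤ f d m := fun d m =>
    mul_nonneg (et_nonneg _ hGp.le _) (rs_nonneg _)
  let T : ℕ → ℝ := fun m => (1 / D ^ 2) * ∑ d ∈ range N, f d m
  have key := hM (fun m => (m : ℤ) - (j : ℤ)) (fun m => (j : ℤ) - (m : ℤ))
    (fun m => yV D α j 0 β m) (fun m => yW D α j 0 β m) T
    (by intro a b hab; simp only at hab; omega) hposV hposW ?_
  · have e1 : ∑ d ∈ range N, FV G α (j + 1) 0 (β + (d : ℝ) / D ^ (2 * j + 2))
        = (N : ℝ≥0∞) * ∑' m, ENNReal.ofReal (T m) := by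
      have e2 : ∀ d : ℕ, FV G α (j + 1) 0 (β + (d : ℝ) / D ^ (2 * j + 2))
          = ∑' m, ENNReal.ofReal (f d m) := fun d => rfl
      calc ∑ d ∈ range N, FV G α (j + 1) 0 (β + (d : ℝ) / D ^ (2 * j + 2))
          = ∑ d ∈ range N, ∑' m, ENNReal.ofReal (f d m) := by
            exact Finset.sum_congr rfl fun d _ => e2 d
        _ = ∑' m, ∑ d ∈ range N, ENNReal.ofReal (f d m) :=
            (Summable.tsum_finsetSum (fun _ _ => ENNReal.summable)).symm
        _ = ∑' m, (N : ℝ≥0∞) * ENNReal.ofReal (T m) := by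
            congr 1; funext m
            rw [← ENNReal.ofReal_sum_of_nonneg (fun d _ => hf0 d m),
              ← ENNReal.ofReal_natCast N, ← ENNReal.ofReal_mul (by positivity), hNr]
            congr 1
            show _ = D ^ 2 * ((1 / D ^ 2) * ∑ d ∈ range N, f d m)
            field_simp
        _ = (N : ℝ≥0∞) * ∑' m, ENNReal.ofReal (T m) := ENNReal.tsum_mul_left
    rw [e1]
    exact mul_le_mul_right key _
  · intro m
    have hcl := h (G ^ 4) c0 α β j m hDn hc0 hα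
    rw [hcast] at hcl
    obtain ⟨hA, hB⟩ := hcl
    have hi : ((m : ℤ) - ((j + 1 : ℕ) : ℤ)) = ((m : ℤ) - (j : ℤ)) - 1 := by push_cast; ring
    have hstep : et G ((m : ℤ) - ((j + 1 : ℕ) : ℤ)) ≤ (G : ℝ)⁻¹ * et G ((m : ℤ) - (j : ℤ)) := by
      rw [hi]; exact et_step _ hG1 _
    have hey : 0 ≤ et G ((m : ℤ) - (j : ℤ)) := et_nonneg _ hGp.le _
    have hey1 : 0 ≤ et G ((m : ℤ) - ((j + 1 : ℕ) : ℤ)) := et_nonneg _ hGp.le _
    have hT : T m = et G ((m : ℤ) - ((j + 1 : ℕ) : ℤ)) * ((1 / D ^ 2) *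
        ∑ d ∈ range N, rs (yV D α (j + 1) 0 (β + (d : ℝ) / D ^ (2 * j + 2)) m)) := by
      show (1 / D ^ 2) * ∑ d ∈ range N, f d m = _
      rw [show ∑ d ∈ range N, f d m = et G ((m : ℤ) - ((j + 1 : ℕ) : ℤ)) *
        ∑ d ∈ range N, rs (yV D α (j + 1) 0 (β + (d : ℝ) / D ^ (2 * j + 2)) m) from
        (Finset.mul_sum _ _ _).symm]
      ring
    have hry : 0 ≤ rs (yV D α j 0 β m) := rs_nonneg _
    rcases hB with hB | ⟨v, hv, w, hw, hcr, hv1, hw1⟩
    · left
      rw [hT]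
      have hS : (1 / D ^ 2) * ∑ d ∈ range N,
          rs (yV D α (j + 1) 0 (β + (d : ℝ) / D ^ (2 * j + 2)) m) ≤ 16 * rs (yV D α j 0 β m) := by
        rw [one_div, inv_mul_le_iff₀ hD2]
        exact hB
      have hS0 : 0 ≤ 16 * rs (yV D α j 0 β m) := by positivity
      calc et G ((m : ℤ) - ((j + 1 : ℕ) : ℤ)) * ((1 / D ^ 2) *
            ∑ d ∈ range N, rs (yV D α (j + 1) 0 (β + (d : ℝ) / D ^ (2 * j + 2)) m))
          ≤ et G ((m : ℤ) - ((j + 1 : ℕ) : ℤ)) * (16 * rs (yV D α j 0 β m)) :=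
            mul_le_mul_of_nonneg_left hS hey1
        _ ≤ ((G : ℝ)⁻¹ * et G ((m : ℤ) - (j : ℤ))) * (16 * rs (yV D α j 0 β m)) :=
            mul_le_mul_of_nonneg_right hstep hS0
        _ = ((G : ℝ)⁻¹ * 16) * (et G ((m : ℤ) - (j : ℤ)) * rs (yV D α j 0 β m)) := by ring
        _ ≤ (1 / 48) * (et G ((m : ℤ) - (j : ℤ)) * rs (yV D α j 0 β m)) := by
            apply mul_le_mul_of_nonneg_right _ (mul_nonneg hey hry)
            rw [inv_mul_le_iff₀ hGp]
            linarith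
    · right
      refine ⟨?_, ?_⟩
      · rw [hT]
        have hS : (1 / D ^ 2) * ∑ d ∈ range N,
            rs (yV D α (j + 1) 0 (β + (d : ℝ) / D ^ (2 * j + 2)) m)
            ≤ 2 * D * rs (yV D α j 0 β m) := by
          rw [one_div, inv_mul_le_iff₀ hD2]
          calc ∑ d ∈ range N, rs (yV D α (j + 1) 0 (β + (d : ℝ) / D ^ (2 * j + 2)) m)
              ≤ ∑ _d ∈ range N, 2 * D * rs (yV D α j 0 β m) := by
                apply Finset.sum_le_sum
                intro d hdr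
                obtain ⟨h1, h2⟩ := hA d (Finset.mem_range.mp hdr)
                exact rs_bound D _ _ hD1 (hposV m) h1 h2
            _ = D ^ 2 * (2 * D * rs (yV D α j 0 β m)) := by
                rw [Finset.sum_const, Finset.card_range, nsmul_eq_mul, hNr]
        have hS0 : 0 ≤ 2 * D * rs (yV D α j 0 β m) := by positivity
        have hstep' : et G ((m : ℤ) - ((j + 1 : ℕ) : ℤ)) ≤ et G ((m : ℤ) - (j : ℤ)) := by
          refine hstep.trans ?_
          have : (G : ℝ)⁻¹ ≤ 1 := inv_le_one_of_one_le₀ hG1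
          nlinarith
        calc et G ((m : ℤ) - ((j + 1 : ℕ) : ℤ)) * ((1 / D ^ 2) *
              ∑ d ∈ range N, rs (yV D α (j + 1) 0 (β + (d : ℝ) / D ^ (2 * j + 2)) m))
            ≤ et G ((m : ℤ) - ((j + 1 : ℕ) : ℤ)) * (2 * D * rs (yV D α j 0 β m)) :=
              mul_le_mul_of_nonneg_left hS hey1
          _ ≤ et G ((m : ℤ) - (j : ℤ)) * (2 * D * rs (yV D α j 0 β m)) :=
              mul_le_mul_of_nonneg_right hstep' hS0
          _ = 2 * D * (et G ((m : ℤ) - (j : ℤ)) * rs (yV D α j 0 β m)) := by ring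
      · have hdv := hd (G ^ 4) c0 α β j 0 m (yV D α j 0 β m) v w hDn hc0 hc1 hα
          (by rw [hcast]; simpa using hβ) (hposV m) (by rw [hcast]; exact hv)
          (by rw [hcast]; exact hw) hcr (by rw [hcast]; exact hv1) (by rw [hcast]; exact hw1)
        rw [hcast] at hdv
        have z1 : ∀ m : ℕ, D ^ (-2 * ((m : ℤ) - (j : ℤ))) = D ^ (2 * j) / D ^ (2 * m) := by
          intro m
          have : (-2 * ((m : ℤ) - (j : ℤ))) = ((2 * j : ℕ) : ℤ) - ((2 * m : ℕ) : ℤ) := by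
            push_cast; ring
          rw [this, zpow_sub₀ hDp.ne', zpow_natCast, zpow_natCast]
        have z2 : ∀ m : ℕ, D ^ (-2 * ((j : ℤ) - (m : ℤ))) = D ^ (2 * m) / D ^ (2 * j) := by
          intro m
          have : (-2 * ((j : ℤ) - (m : ℤ))) = ((2 * m : ℕ) : ℤ) - ((2 * j : ℕ) : ℤ) := by
            push_cast; ring
          rw [this, zpow_sub₀ hDp.ne', zpow_natCast, zpow_natCast]
        rcases hdv with h1 | ⟨m', h1, h2⟩
        · left
          rw [z1]; exact h1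
        · right
          refine ⟨m', ?_, ?_⟩
          · rw [z2]; exact h1
          · rw [z1]; exact h2

end Pool.Agent.W151.LW
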